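import Mathlib
import Pool.Agent.Lib.MP_fe2d2a_anP.Moebius
import Pool.Agent.Lib.MP_fe2d2a_anNE.Block

/-!
The conclusion of Q1 is preserved by Moebius maps of the circle that move the zeros towards `-1`.
-/

set_option autoImplicit false

open Finset Polynomial Filter Set

namespace Pool.Agent.MP_fe2d2a_anMB

open Pool.Agent.MP_fe2d2a_anEC Pool.Agent.MP_fe2d2a_anR Pool.Agent.MP_fe2d2a_anP
open Pool.Agent.MP_fe2d2a_anNE

variable {ι : Type*} [DecidableEq ι]

/-- The transformed factor is a multiple of a factor. -/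
lemma mf_factor {c s κ u : ℝ} (hκ : κ = 1 + s ^ 2 - 2 * s * c)
    (hu : u * κ = (1 + s ^ 2) * c - 2 * s) :
    mf c s = C κ * (X ^ 2 - C (2 * u) * X + 1) := by
  unfold mf
  rw [← hκ, ← hu]
  simp only [C_mul]
  ring

omit [DecidableEq ι] in
/-- The transformed product of all factors but one. -/
lemma MP_factor (c : ι → ℝ) (κ u : ι → ℝ) (s : ℝ) (B : Finset ι)
    (hκ : ∀ k ∈ B, κ k = 1 + s ^ 2 - 2 * s * c k)
    (hu : ∀ k ∈ B, u k * κ k = (1 + s ^ 2) * c k - 2 * s) :
    MP c B s = C (∏ k ∈ B, κ k) * QP u B := by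
  unfold MP QP
  rw [map_prod, ← Finset.prod_mul_distrib]
  exact Finset.prod_congr rfl (fun k hk => mf_factor (hκ k hk) (hu k hk))

/-- The weighted sum of the transformed products with one factor removed. -/
lemma sum_MP_eq (c d : ι → ℝ) (A : Finset ι) {s : ℝ} (hs : 0 ≤ s) :
    ∑ k ∈ A, C (d k) * MP c (A.erase k) s =
      ∑ i ∈ range (2 * (A.card - 1) + 1),
        C (∑ k ∈ A, d k * (QP c (A.erase k)).coeff i) *
          ((X + C s) ^ i * (1 + C s * X) ^ (2 * (A.card - 1) - i)) := by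
  have e1 : ∀ k ∈ A, C (d k) * MP c (A.erase k) s =
      ∑ i ∈ range (2 * (A.card - 1) + 1), C (d k * (QP c (A.erase k)).coeff i) *
          ((X + C s) ^ i * (1 + C s * X) ^ (2 * (A.card - 1) - i)) := by
    intro k hk
    rw [MP_eq c (A.erase k) hs, Finset.card_erase_of_mem hk, Finset.mul_sum]
    apply Finset.sum_congr rfl
    intro i _
    rw [C_mul, mul_assoc]
  rw [Finset.sum_congr rfl e1, Finset.sum_comm]
  apply Finset.sum_congr rfl
  intro i _
  rw [← Finset.sum_mul, ← map_sum]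

/-- Strict positivity of the transformed sum. -/
lemma sum_MP_pos (c d : ι → ℝ) (A : Finset ι) {s : ℝ} (hs : 0 < s)
    (hd : ∀ k ∈ A, 0 < d k) (hA : A.Nonempty)
    (h : ∀ i, 0 ≤ ∑ k ∈ A, d k * (QP c (A.erase k)).coeff i)
    (j : ℕ) (hj : j ≤ 2 * (A.card - 1)) :
    0 < (∑ k ∈ A, C (d k) * MP c (A.erase k) s).coeff j := by
  rw [sum_MP_eq c d A hs.le, finsetSum_coeff]
  have h1 : ∀ j, 0 ≤ (1 + C s * X : ℝ[X]).coeff j := by
    intro j
    rw [coeff_add, coeff_C_mul, coeff_one, coeff_X]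
    split_ifs <;> positivity
  have h2 : ∀ j, 0 ≤ (X + C s : ℝ[X]).coeff j := by
    intro j
    rw [coeff_add, coeff_C, coeff_X]
    split_ifs <;> positivity
  apply Finset.sum_pos'
  · intro i _
    rw [coeff_C_mul]
    exact mul_nonneg (h i) (coeff_nonneg_mul (coeff_nonneg_pow h2 _) (coeff_nonneg_pow h1 _) j)
  · refine ⟨0, Finset.mem_range.2 (by omega), ?_⟩
    rw [coeff_C_mul, pow_zero, one_mul, Nat.sub_zero]
    apply mul_pos
    · have e : ∀ k ∈ A, d k * (QP c (A.erase k)).coeff 0 = d k := by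
        intro k _
        rw [QP_coeff_zero, mul_one]
      rw [Finset.sum_congr rfl e]
      exact Finset.sum_pos hd hA
    · exact coeff_pow_pos hs _ j hj

/-- A function that is monotone on `[0, ε]` has a nonnegative derivative at `0`. -/
lemma deriv_nonneg_of_mono {f : ℝ → ℝ} {f' ε : ℝ} (hε : 0 < ε) (hf : HasDerivAt f f' 0)
    (hm : MonotoneOn f (Icc 0 ε)) : 0 ≤ f' := by
  have h1 : derivWithin f (Icc 0 ε) 0 = f' :=
    hf.hasDerivWithinAt.derivWithin ((uniqueDiffOn_Icc hε) 0 (Set.left_mem_Icc.2 hε.le))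
  rw [← h1]
  exact hm.derivWithin_nonneg

lemma sin_two_arctan (x : ℝ) : Real.sin (2 * Real.arctan x) = 2 * x / (1 + x ^ 2) := by
  rw [Real.sin_two_mul, Real.sin_arctan, Real.cos_arctan]
  have h1 : (0 : ℝ) < 1 + x ^ 2 := by positivity
  set r := Real.sqrt (1 + x ^ 2) with hr
  have h2 : r ^ 2 = 1 + x ^ 2 := Real.sq_sqrt h1.le
  have h3 : r ≠ 0 := (Real.sqrt_pos.2 h1).ne'
  rw [← h2]
  field_simp

omit [DecidableEq ι] in
/-- The numbers of the Moebius map for the angles `a k` and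
`b k = 2 arctan (L tan (a k / 2))`. -/
lemma moebius_data (a : ι → ℝ) (A : Finset ι) (ha : ∀ k ∈ A, 0 < a k ∧ a k < Real.pi)
    (L : ℝ) (hL0 : 0 < L) (hL1 : L < 1) (b : ι → ℝ)
    (hb : ∀ k, b k = 2 * Real.arctan (L * Real.tan (a k / 2))) :
    ∃ (s : ℝ) (κ : ι → ℝ), 0 < s ∧ s < 1 ∧ (∀ k, 0 < κ k) ∧
      (∀ k ∈ A, κ k = 1 + s ^ 2 - 2 * s * Real.cos (b k)) ∧
      (∀ k ∈ A, Real.cos (a k) * κ k = (1 + s ^ 2) * Real.cos (b k) - 2 * s) ∧
      (∀ k ∈ A, Real.sin (a k) * κ k = (1 - s ^ 2) * Real.sin (b k)) ∧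
      (∀ k ∈ A, 0 < Real.sin (b k)) := by
  set s : ℝ := (1 - L) / (1 + L) with hs
  have hs0 : 0 < s := by
    rw [hs]
    apply div_pos <;> linarith
  have hs1 : s < 1 := by
    rw [hs, div_lt_one (by linarith)]
    linarith
  have hT : ∀ k ∈ A, 0 < Real.tan (a k / 2) := by
    intro k hk
    apply Real.tan_pos_of_pos_of_lt_pi_div_two
    · linarith [(ha k hk).1]
    · linarith [(ha k hk).2]
  have hcosb : ∀ k, Real.cos (b k) =
      (1 - (L * Real.tan (a k / 2)) ^ 2) / (1 + (L * Real.tan (a k / 2)) ^ 2) := by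
    intro k
    have h1 : (0 : ℝ) < 1 + (L * Real.tan (a k / 2)) ^ 2 := by positivity
    rw [hb, Real.cos_two_mul, Real.cos_sq_arctan]
    field_simp
    ring
  have hsinb : ∀ k, Real.sin (b k) =
      2 * (L * Real.tan (a k / 2)) / (1 + (L * Real.tan (a k / 2)) ^ 2) := by
    intro k
    rw [hb, sin_two_arctan]
  have hhalf : ∀ k ∈ A, 0 < Real.cos (a k / 2) := by
    intro k hk
    apply Real.cos_pos_of_mem_Ioo
    constructor
    · linarith [(ha k hk).1, Real.pi_pos]
    · linarith [(ha k hk).2]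
  have hcosa : ∀ k ∈ A, Real.cos (a k) =
      (1 - Real.tan (a k / 2) ^ 2) / (1 + Real.tan (a k / 2) ^ 2) := by
    intro k hk
    have h0 := hhalf k hk
    have h1 : (0 : ℝ) < 1 + Real.tan (a k / 2) ^ 2 := by positivity
    have e : a k = 2 * (a k / 2) := by ring
    conv_lhs => rw [e]
    rw [eq_div_iff h1.ne', Real.cos_two_mul', Real.tan_eq_sin_div_cos]
    have h2 := Real.sin_sq_add_cos_sq (a k / 2)
    field_simp
    linear_combination (Real.cos (a k / 2) ^ 2 - Real.sin (a k / 2) ^ 2) * h2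
  have hsina : ∀ k ∈ A, Real.sin (a k) =
      2 * Real.tan (a k / 2) / (1 + Real.tan (a k / 2) ^ 2) := by
    intro k hk
    have h0 := hhalf k hk
    have h1 : (0 : ℝ) < 1 + Real.tan (a k / 2) ^ 2 := by positivity
    have e : a k = 2 * (a k / 2) := by ring
    conv_lhs => rw [e]
    rw [eq_div_iff h1.ne', Real.sin_two_mul, Real.tan_eq_sin_div_cos]
    have h2 := Real.sin_sq_add_cos_sq (a k / 2)
    field_simp
    linear_combination (Real.sin (a k / 2)) * h2
  have hL : (1 : ℝ) + L ≠ 0 := by linarith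
  refine ⟨s, fun k => 1 + s ^ 2 - 2 * s * Real.cos (b k), hs0, hs1, ?_, fun k _ => rfl, ?_, ?_, ?_⟩
  · intro k
    have h1 := Real.cos_le_one (b k)
    have h2 : 0 < (1 - s) ^ 2 := by
      have : 0 < 1 - s := by linarith
      positivity
    simp only
    nlinarith
  · intro k hk
    have h1 : (1 : ℝ) + Real.tan (a k / 2) ^ 2 ≠ 0 := by positivity
    have h2 : (1 : ℝ) + (L * Real.tan (a k / 2)) ^ 2 ≠ 0 := by positivity
    simp only
    rw [hcosa k hk, hcosb k, hs]
    field_simp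
    ring
  · intro k hk
    have h1 : (1 : ℝ) + Real.tan (a k / 2) ^ 2 ≠ 0 := by positivity
    have h2 : (1 : ℝ) + (L * Real.tan (a k / 2)) ^ 2 ≠ 0 := by positivity
    simp only
    rw [hsina k hk, hcosb k, hsinb k, hs]
    field_simp
    ring
  · intro k hk
    rw [hsinb k]
    have := hT k hk
    positivity

omit [DecidableEq ι] in
/-- Nonnegative coefficients are preserved. -/
theorem moebius_nonneg (a : ι → ℝ) (A : Finset ι) (ha : ∀ k ∈ A, 0 < a k ∧ a k < Real.pi)
    (L : ℝ) (hL0 : 0 < L) (hL1 : L < 1) (b : ι → ℝ)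
    (hb : ∀ k, b k = 2 * Real.arctan (L * Real.tan (a k / 2)))
    (h : ∀ j, 0 ≤ (QP (fun k => Real.cos (b k)) A).coeff j) :
    ∀ j, 0 ≤ (QP (fun k => Real.cos (a k)) A).coeff j := by
  obtain ⟨s, κ, hs0, hs1, hκpos, hκ, hu, hv, hd⟩ := moebius_data a A ha L hL0 hL1 b hb
  intro j
  rcases Nat.lt_or_ge (2 * A.card) j with hj | hj
  · rw [coeff_eq_zero_of_natDegree_lt]
    rw [QP_natDegree]
    exact hj
  · have h1 := MP_coeff_pos (fun k => Real.cos (b k)) A hs0 h j hj
    rw [MP_factor (fun k => Real.cos (b k)) κ (fun k => Real.cos (a k)) s A hκ hu,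
      coeff_C_mul] at h1
    have hprod : 0 < ∏ k ∈ A, κ k := Finset.prod_pos (fun k _ => hκpos k)
    exact ((mul_pos_iff_of_pos_left hprod).1 h1).le

/-- **Moebius propagation.**  If the coefficients of the product with angles `b k` are monotone for
small rotations, so are those of the product with angles `a k`, where
`tan (b k / 2) = L * tan (a k / 2)`, `0 < L < 1`. -/
theorem moebius_block (a : ι → ℝ) (A : Finset ι) (ha : ∀ k ∈ A, 0 < a k ∧ a k < Real.pi)
    (L : ℝ) (hL0 : 0 < L) (hL1 : L < 1) (b : ι → ℝ)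
    (hb : ∀ k, b k = 2 * Real.arctan (L * Real.tan (a k / 2)))
    (h : ∃ ε > (0 : ℝ), ∀ j, MonotoneOn (fun t : ℝ => (RP b A t).coeff j) (Icc 0 ε)) :
    ∃ ε > (0 : ℝ), ∀ j, MonotoneOn (fun t : ℝ => (RP a A t).coeff j) (Icc 0 ε) := by
  obtain ⟨s, κ, hs0, hs1, hκpos, hκ, hu, hv, hd⟩ := moebius_data a A ha L hL0 hL1 b hb
  obtain ⟨ε, hε, hm⟩ := h
  -- the derivative at the angles `b` is nonnegative
  have hω : ∀ i, 0 ≤ ∑ k ∈ A, Real.sin (b k) *
      (QP (fun k => Real.cos (b k)) (A.erase k)).coeff i := by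
    intro i
    have e : (fun t : ℝ => (RP b A t).coeff (i + 1)) =
        fun t : ℝ => (QP (fun k => Real.cos (t + b k)) A).coeff (i + 1) := by
      funext t
      rw [RP_eq]
    have hm1 := hm (i + 1)
    rw [e] at hm1
    have h1 := deriv_nonneg_of_mono hε (coeff_deriv b A (i + 1) 0) hm1
    simp only [zero_add, coeff_X_mul] at h1
    have e2 : ∑ k ∈ A, 2 * Real.sin (b k) *
        (QP (fun k => Real.cos (b k)) (A.erase k)).coeff i =
        2 * ∑ k ∈ A, Real.sin (b k) *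
        (QP (fun k => Real.cos (b k)) (A.erase k)).coeff i := by
      rw [Finset.mul_sum]
      apply Finset.sum_congr rfl
      intro k _
      ring
    rw [e2] at h1
    linarith
  have hs2 : 0 < 1 - s ^ 2 := by nlinarith
  apply block_of_pos a A
  intro i hi
  have hA : A.Nonempty := by
    rw [← Finset.card_pos]
    omega
  have hpos := sum_MP_pos (fun k => Real.cos (b k)) (fun k => Real.sin (b k)) A hs0 hd hA hω i
    (by omega)
  -- relate the two sums
  have key : C (1 - s ^ 2) * ∑ k ∈ A, C (Real.sin (b k)) *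
        MP (fun k => Real.cos (b k)) (A.erase k) s =
      C (∏ k ∈ A, κ k) * ∑ k ∈ A, C (Real.sin (a k)) *
        QP (fun k => Real.cos (a k)) (A.erase k) := by
    rw [Finset.mul_sum, Finset.mul_sum]
    apply Finset.sum_congr rfl
    intro k hk
    have e1 := MP_factor (fun k => Real.cos (b k)) κ (fun k => Real.cos (a k)) s (A.erase k)
      (fun j hj => hκ j (Finset.mem_of_mem_erase hj))
      (fun j hj => hu j (Finset.mem_of_mem_erase hj))
    have e2 : ∏ j ∈ A, κ j = κ k * ∏ j ∈ A.erase k, κ j := (Finset.mul_prod_erase A κ hk).symm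
    have e3 : (C (κ k) : ℝ[X]) * C (Real.sin (a k)) = C (1 - s ^ 2) * C (Real.sin (b k)) := by
      rw [← C_mul, ← C_mul, mul_comm (κ k), hv k hk]
    rw [e1, e2, C_mul]
    linear_combination -(C (∏ j ∈ A.erase k, κ j) * QP (fun k => Real.cos (a k)) (A.erase k)) * e3
  have hprod : 0 < ∏ k ∈ A, κ k := Finset.prod_pos (fun k _ => hκpos k)
  have hc := congrArg (fun p : ℝ[X] => p.coeff i) key
  simp only [coeff_C_mul] at hc
  have h3 : 0 < (∑ k ∈ A, C (Real.sin (a k)) *
      QP (fun k => Real.cos (a k)) (A.erase k)).coeff i := by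
    have h4 : 0 < (∏ k ∈ A, κ k) * (∑ k ∈ A, C (Real.sin (a k)) *
      QP (fun k => Real.cos (a k)) (A.erase k)).coeff i := by
      rw [← hc]
      exact mul_pos hs2 hpos
    exact (mul_pos_iff_of_pos_left hprod).1 h4
  rw [finsetSum_coeff] at h3
  simp only [coeff_C_mul] at h3
  have e5 : ∑ k ∈ A, 2 * Real.sin (a k) * (QP (fun k => Real.cos (a k)) (A.erase k)).coeff i =
      2 * ∑ k ∈ A, Real.sin (a k) * (QP (fun k => Real.cos (a k)) (A.erase k)).coeff i := by
    rw [Finset.mul_sum]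
    apply Finset.sum_congr rfl
    intro k _
    ring
  rw [e5]
  linarith

end Pool.Agent.MP_fe2d2a_anMB
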